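import Pool.Agent.H562Z.Roe.Main

set_option autoImplicit false

namespace Pool.Agent.Results.MP_80b727_an.ANucDimZ2

open Pool.Agent.H562Z.Roe

/-- For `X = ℤ × ℤ` with the maximum metric (the word metric of the king's moves), a countable
discrete metric space of bounded geometry, the uniform Roe algebra `Gen (FiniteProp X)` has nuclear dimension at most
`1`, while the asymptotic dimension is at least `2`; so the two are different. -/
theorem result :
    Countable (ℤ × ℤ) ∧ DiscreteTopology (ℤ × ℤ) ∧ BoundedGeometry (ℤ × ℤ) ∧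
      GenIsClosure (FiniteProp (ℤ × ℤ)) ∧
      ∃ (_ : PartialOrder (Gen (FiniteProp (ℤ × ℤ))))
        (_ : StarOrderedRing (Gen (FiniteProp (ℤ × ℤ)))),
        nucDim (Gen (FiniteProp (ℤ × ℤ))) ≤ 1 ∧ 2 ≤ asdim (ℤ × ℤ) ∧
          nucDim (Gen (FiniteProp (ℤ × ℤ))) ≠ asdim (ℤ × ℤ) := by
  letI o : PartialOrder (Gen (FiniteProp (ℤ × ℤ))) := CStarAlgebra.spectralOrder _
  haveI s : StarOrderedRing (Gen (FiniteProp (ℤ × ℤ))) := CStarAlgebra.spectralOrderedRing _
  have h0 : nucDim (Gen (FiniteProp (ℤ × ℤ))) ≤ 1 := @nucDim_le o s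
  refine ⟨inferInstance, inferInstance, bg, roeSub_coe _, o, s, h0, two_le_asdim, fun h => ?_⟩
  have h1 := two_le_asdim.trans (h ▸ h0)
  exact absurd h1 (by decide)

end Pool.Agent.Results.MP_80b727_an.ANucDimZ2
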